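import Pool.Agent.Q149.Skel

open Q149.Fun

namespace Pool.Agent.Results.MP_7a056a_gt.FinSquareSkeletalImpliesSkeletal

/-- Every normal functor on the category of compacta that is finitely square-skeletal is
skeletal. -/
theorem result : ∀ F : CompFunctor, IsNormal F → FinSquareSkeletal F → SkeletalFunctor F :=
  fun _ hF hsq => skeletal_of_finSquareSkeletal hF.mono hF.epi hF.cont hF.preimages hsq

end Pool.Agent.Results.MP_7a056a_gt.FinSquareSkeletalImpliesSkeletal
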